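import Pool.Agent.H923R2.FZ.Stubs2

set_option autoImplicit false

open scoped ComplexConjugate

noncomputable section

namespace Pool.Agent.H923R2.FZ.T_HSTEP

open Pool.Agent.H923R2.FP

variable {B : Type} [CStarAlgebra B]

lemma freeFam_comp {K K' : Type} {τ : B →ₗ[ℂ] ℂ} {S : K → StarSubalgebra ℂ B}
    (h : FreeFam τ S) (i : K' → K) (hi : Function.Injective i) :
    FreeFam τ (fun k => S (i k)) := by
  intro w hw hz hc
  have := h (w.map (fun z => (i z.1, z.2))) (by simpa using hw) ?_ ?_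
  · simpa [List.map_map, Function.comp_def] using this
  · intro z hz'
    rw [List.mem_map] at hz'
    obtain ⟨z', h1, rfl⟩ := hz'
    exact hz z' h1
  · rw [List.isChain_map]
    exact hc.imp (fun a b hab h => hab (hi h))

lemma lemA {Z : Type} [CStarAlgebra Z] {k : ℕ} (e : Fin (k+1) → (Z →⋆ₐ[ℂ] B))
    (f : ℕ → (C(unitInterval, ℂ) →⋆ₐ[ℂ] B)) (x : B)
    (hx : x ∈ StarAlgebra.adjoin ℂ ((⋃ j, Set.range (e j)) ∪ ⋃ n, Set.range (f n))) :
    ∃ (N : ℕ) (G : Finset Z), ∀ η : ℝ, 0 < η → ∃ δ : ℝ, 0 < δ ∧ ∀ T : StarSubalgebra ℂ B,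
      (∀ (j : Fin k) (z : Z), e j.castSucc z ∈ T) → (∀ n < N, ∀ z, f n z ∈ T) →
      (∀ g ∈ G, ∃ y ∈ T, ‖e (Fin.last k) g - y‖ < δ) → ∃ y ∈ T, ‖x - y‖ < η := by
  classical
  induction hx using StarAlgebra.adjoin_induction with
  | mem x h =>
    rcases h with h | h
    · obtain ⟨j, hj⟩ := Set.mem_iUnion.1 h
      obtain ⟨z, rfl⟩ := hj
      refine ⟨0, {z}, fun η hη => ⟨η, hη, fun T h1 _ h3 => ?_⟩⟩
      induction j using Fin.lastCases with
      | last => exact h3 z (by simp)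
      | cast j => exact ⟨_, h1 j z, by simpa using hη⟩
    · obtain ⟨n, hn⟩ := Set.mem_iUnion.1 h
      obtain ⟨z, rfl⟩ := hn
      exact ⟨n + 1, ∅, fun η hη => ⟨η, hη, fun T _ h2 _ =>
        ⟨_, h2 n (Nat.lt_succ_self n) z, by simpa using hη⟩⟩⟩
  | algebraMap r =>
    exact ⟨0, ∅, fun η hη => ⟨η, hη, fun T _ _ _ => ⟨_, T.algebraMap_mem r, by simpa using hη⟩⟩⟩
  | add x y hx hy hx' hy' =>
    obtain ⟨N, G, hN⟩ := hx'
    obtain ⟨M, H, hM⟩ := hy'
    refine ⟨max N M, G ∪ H, fun η hη => ?_⟩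
    obtain ⟨δ1, hδ1, h1⟩ := hN (η / 2) (by positivity)
    obtain ⟨δ2, hδ2, h2⟩ := hM (η / 2) (by positivity)
    refine ⟨min δ1 δ2, lt_min hδ1 hδ2, fun T ht1 ht2 ht3 => ?_⟩
    obtain ⟨a, ha, ha'⟩ := h1 T ht1 (fun n hn => ht2 n (lt_of_lt_of_le hn (le_max_left _ _)))
      (fun g hg => by
        obtain ⟨y, hy, hy'⟩ := ht3 g (Finset.mem_union_left _ hg)
        exact ⟨y, hy, lt_of_lt_of_le hy' (min_le_left _ _)⟩)
    obtain ⟨b, hb, hb'⟩ := h2 T ht1 (fun n hn => ht2 n (lt_of_lt_of_le hn (le_max_right _ _)))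
      (fun g hg => by
        obtain ⟨y, hy, hy'⟩ := ht3 g (Finset.mem_union_right _ hg)
        exact ⟨y, hy, lt_of_lt_of_le hy' (min_le_right _ _)⟩)
    refine ⟨a + b, add_mem ha hb, ?_⟩
    calc ‖x + y - (a + b)‖ = ‖(x - a) + (y - b)‖ := by congr 1; abel
      _ ≤ ‖x - a‖ + ‖y - b‖ := norm_add_le _ _
      _ < η := by linarith
  | mul x y hx hy hx' hy' =>
    obtain ⟨N, G, hN⟩ := hx'
    obtain ⟨M, H, hM⟩ := hy'
    refine ⟨max N M, G ∪ H, fun η hη => ?_⟩
    have hxp : 0 < 2 * (‖x‖ + 1 + ‖y‖) := by positivity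
    set η1 : ℝ := min 1 (η / (2 * (‖x‖ + 1 + ‖y‖))) with hη1
    have hη1p : 0 < η1 := lt_min one_pos (by positivity)
    obtain ⟨δ1, hδ1, h1⟩ := hN η1 hη1p
    obtain ⟨δ2, hδ2, h2⟩ := hM η1 hη1p
    refine ⟨min δ1 δ2, lt_min hδ1 hδ2, fun T ht1 ht2 ht3 => ?_⟩
    obtain ⟨a, ha, ha'⟩ := h1 T ht1 (fun n hn => ht2 n (lt_of_lt_of_le hn (le_max_left _ _)))
      (fun g hg => by
        obtain ⟨y, hy, hy'⟩ := ht3 g (Finset.mem_union_left _ hg)
        exact ⟨y, hy, lt_of_lt_of_le hy' (min_le_left _ _)⟩)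
    obtain ⟨b, hb, hb'⟩ := h2 T ht1 (fun n hn => ht2 n (lt_of_lt_of_le hn (le_max_right _ _)))
      (fun g hg => by
        obtain ⟨y, hy, hy'⟩ := ht3 g (Finset.mem_union_right _ hg)
        exact ⟨y, hy, lt_of_lt_of_le hy' (min_le_right _ _)⟩)
    refine ⟨a * b, mul_mem ha hb, ?_⟩
    have hanorm : ‖a‖ ≤ ‖x‖ + 1 := by
      have h3 : ‖a‖ ≤ ‖x‖ + ‖x - a‖ := by
        calc ‖a‖ = ‖x - (x - a)‖ := by congr 1; abel
          _ ≤ _ := norm_sub_le _ _
      have h4 : η1 ≤ 1 := min_le_left _ _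
      linarith
    have h5 : η1 * (2 * (‖x‖ + 1 + ‖y‖)) ≤ η := by
      have : η1 ≤ η / (2 * (‖x‖ + 1 + ‖y‖)) := min_le_right _ _
      rwa [le_div_iff₀ hxp] at this
    calc ‖x * y - a * b‖ = ‖(x - a) * y + a * (y - b)‖ := by congr 1; noncomm_ring
      _ ≤ ‖(x - a) * y‖ + ‖a * (y - b)‖ := norm_add_le _ _
      _ ≤ ‖x - a‖ * ‖y‖ + ‖a‖ * ‖y - b‖ := add_le_add (norm_mul_le _ _) (norm_mul_le _ _)
      _ ≤ η1 * ‖y‖ + (‖x‖ + 1) * η1 := by
        refine add_le_add ?_ ?_
        · exact mul_le_mul_of_nonneg_right ha'.le (norm_nonneg _)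
        · exact mul_le_mul hanorm hb'.le (norm_nonneg _) (by positivity)
      _ = η1 * (‖x‖ + 1 + ‖y‖) := by ring
      _ < η := by nlinarith [norm_nonneg x, norm_nonneg y, mul_pos hη1p hxp]
  | star x hx hx' =>
    obtain ⟨N, G, hN⟩ := hx'
    refine ⟨N, G, fun η hη => ?_⟩
    obtain ⟨δ, hδ, h⟩ := hN η hη
    refine ⟨δ, hδ, fun T h1 h2 h3 => ?_⟩
    obtain ⟨y, hy, hy'⟩ := h T h1 h2 h3
    refine ⟨star y, star_mem hy, ?_⟩
    rw [← star_sub, norm_star]
    exact hy'

/-- finite sets -/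
lemma lemF {Z : Type} [CStarAlgebra Z] {k : ℕ} (e : Fin (k+1) → (Z →⋆ₐ[ℂ] B))
    (f : ℕ → (C(unitInterval, ℂ) →⋆ₐ[ℂ] B))
    (hgen : (StarAlgebra.adjoin ℂ ((⋃ j, Set.range (e j)) ∪
      ⋃ n, Set.range (f n))).topologicalClosure = ⊤) (ε : ℝ) (hε : 0 < ε) (F : Finset B) :
    ∃ (N : ℕ) (G : Finset Z) (δ : ℝ), 0 < δ ∧ ∀ T : StarSubalgebra ℂ B,
      (∀ (j : Fin k) (z : Z), e j.castSucc z ∈ T) → (∀ n < N, ∀ z, f n z ∈ T) →
      (∀ g ∈ G, ∃ y ∈ T, ‖e (Fin.last k) g - y‖ < δ) → ∀ x ∈ F, ∃ y ∈ T, ‖x - y‖ < ε := by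
  classical
  induction F using Finset.induction_on with
  | empty => exact ⟨0, ∅, 1, one_pos, fun T _ _ _ x hx => by simp at hx⟩
  | insert x F hxF ih =>
    obtain ⟨N, G, δ1, hδ1, h1⟩ := ih
    have hx : x ∈ (StarAlgebra.adjoin ℂ ((⋃ j, Set.range (e j)) ∪
      ⋃ n, Set.range (f n))).topologicalClosure := by rw [hgen]; trivial
    have hx2 : x ∈ closure ((StarAlgebra.adjoin ℂ ((⋃ j, Set.range (e j)) ∪
      ⋃ n, Set.range (f n)) : StarSubalgebra ℂ B) : Set B) := by
      rw [← StarSubalgebra.topologicalClosure_coe]; exact hx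
    obtain ⟨x', hx', hxx'⟩ := Metric.mem_closure_iff.1 hx2 (ε / 2) (by positivity)
    obtain ⟨M, H, hM⟩ := lemA e f x' hx'
    obtain ⟨δ2, hδ2, h2⟩ := hM (ε / 2) (by positivity)
    refine ⟨max N M, G ∪ H, min δ1 δ2, lt_min hδ1 hδ2, fun T ht1 ht2 ht3 z hz => ?_⟩
    rw [Finset.mem_insert] at hz
    rcases hz with rfl | hz
    · obtain ⟨b, hb, hb'⟩ := h2 T ht1 (fun n hn => ht2 n (lt_of_lt_of_le hn (le_max_right _ _)))
        (fun g hg => by
          obtain ⟨y, hy, hy'⟩ := ht3 g (Finset.mem_union_right _ hg)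
          exact ⟨y, hy, lt_of_lt_of_le hy' (min_le_right _ _)⟩)
      refine ⟨b, hb, ?_⟩
      rw [dist_eq_norm] at hxx'
      calc ‖z - b‖ = ‖(z - x') + (x' - b)‖ := by congr 1; abel
        _ ≤ ‖z - x'‖ + ‖x' - b‖ := norm_add_le _ _
        _ < ε := by linarith
    · exact h1 T ht1 (fun n hn => ht2 n (lt_of_lt_of_le hn (le_max_left _ _)))
        (fun g hg => by
          obtain ⟨y, hy, hy'⟩ := ht3 g (Finset.mem_union_left _ hg)
          exact ⟨y, hy, lt_of_lt_of_le hy' (min_le_left _ _)⟩) z hz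

/-- density of the lifted generators -/
lemma lemGen (X : Set B) (X' : Set (StarAlgebra.adjoin ℂ X).topologicalClosure)
    (hX : X ⊆ (fun b : (StarAlgebra.adjoin ℂ X).topologicalClosure => (b : B)) '' X') :
    (StarAlgebra.adjoin ℂ X').topologicalClosure = ⊤ := by
  rw [eq_top_iff]
  intro b _
  rw [← SetLike.mem_coe, StarSubalgebra.topologicalClosure_coe, Metric.mem_closure_iff]
  intro ε hε
  have hb : (b : B) ∈ closure ((StarAlgebra.adjoin ℂ X : StarSubalgebra ℂ B) : Set B) := by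
    rw [← StarSubalgebra.topologicalClosure_coe]; exact b.2
  obtain ⟨a, ha, hab⟩ := Metric.mem_closure_iff.1 hb ε hε
  have ha2 : a ∈ (StarAlgebra.adjoin ℂ X').map
      (StarSubalgebra.subtype ((StarAlgebra.adjoin ℂ X).topologicalClosure)) := by
    rw [StarAlgHom.map_adjoin]
    exact StarAlgebra.adjoin_mono hX ha
  obtain ⟨a', ha', rfl⟩ := StarSubalgebra.mem_map.1 ha2
  exact ⟨a', ha', hab⟩

theorem t_HSTEP (hREPL : S_REPL) (hSUB : S_SUB) : S_HSTEP := by
  classical
  intro Z _ t hCJ k B _ τ e f hR N0 F ε hε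
  obtain ⟨Na, G, δ, hδ, hT⟩ := lemF e f hR.gen ε hε F
  set N : ℕ := max N0 Na with hN
  set X : Set B := Set.range (e (Fin.last k)) ∪ ⋃ m, Set.range (f (N + m)) with hX
  set B' : StarSubalgebra ℂ B := (StarAlgebra.adjoin ℂ X).topologicalClosure with hB'
  have hcl : IsClosed (B' : Set B) := StarSubalgebra.isClosed_topologicalClosure _
  have hXB : X ⊆ B' := fun x hx =>
    StarSubalgebra.le_topologicalClosure _ (StarAlgebra.subset_adjoin ℂ X hx)
  have heB : ∀ z, e (Fin.last k) z ∈ B' := fun z => hXB (Or.inl ⟨z, rfl⟩)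
  have hfB : ∀ m z, f (N + m) z ∈ B' := fun m z =>
    hXB (Or.inr (Set.mem_iUnion.2 ⟨m, z, rfl⟩))
  set τ' : B' →ₗ[ℂ] ℂ := τ.comp B'.subtype.toAlgHom.toLinearMap with hτ'
  have hτ'a : ∀ b : B', τ' b = τ (b : B) := fun b => rfl
  set d : Z →⋆ₐ[ℂ] B' := (e (Fin.last k)).codRestrict B' heB with hd
  set f1 : ℕ → (C(unitInterval, ℂ) →⋆ₐ[ℂ] B') := fun m => (f (N + m)).codRestrict B' (hfB m)
    with hf1
  obtain ⟨hfts, hfree⟩ := hSUB B τ hR.fts B'
  have hRP : RFPw (J := Unit) (fun _ => Z) (fun _ => t) τ' (fun _ => d) f1 := by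
    refine ⟨hfts, fun _ z => ?_, fun m z => ?_, ?_, ?_⟩
    · rw [hτ'a, hd, StarAlgHom.coe_codRestrict]
      exact hR.tr _ z
    · rw [hτ'a, hf1, StarAlgHom.coe_codRestrict]
      exact hR.trf _ z
    · rw [← hfree]
      have hinj : Function.Injective
          (fun o : Unit ⊕ ℕ => (o.elim (fun _ => Sum.inl (Fin.last k)) (fun m => Sum.inr (N + m)) :
            Fin (k + 1) ⊕ ℕ)) := by
        rintro (a | a) (b | b) hab <;> simp_all
      have h1 := freeFam_comp hR.free _ hinj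
      convert h1 using 2 with o
      rcases o with o | m
      · ext x
        simp only [Sum.elim_inl, StarSubalgebra.mem_map]
        constructor
        · rintro ⟨y, ⟨z, rfl⟩, rfl⟩
          exact ⟨z, rfl⟩
        · rintro ⟨z, rfl⟩
          exact ⟨d z, ⟨z, rfl⟩, rfl⟩
      · ext x
        simp only [Sum.elim_inr, StarSubalgebra.mem_map]
        constructor
        · rintro ⟨y, ⟨z, rfl⟩, rfl⟩
          exact ⟨z, rfl⟩
        · rintro ⟨z, rfl⟩
          exact ⟨f1 m z, ⟨z, rfl⟩, rfl⟩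
    · apply lemGen
      rintro x (⟨z, rfl⟩ | hx)
      · exact ⟨d z, Or.inl (Set.mem_iUnion.2 ⟨(), z, rfl⟩), rfl⟩
      · obtain ⟨m, z, rfl⟩ := Set.mem_iUnion.1 hx
        exact ⟨f1 m z, Or.inr (Set.mem_iUnion.2 ⟨m, z, rfl⟩), rfl⟩
  obtain ⟨u', hu'⟩ := hCJ B' τ' d f1 hRP G δ hδ
  -- the unitary of `B`
  have huu : (u' : B').1 ∈ unitary B := by
    have h := Unitary.mem_iff.1 u'.2
    rw [Unitary.mem_iff]
    exact ⟨congrArg (fun b : B' => (b : B)) h.1, congrArg (fun b : B' => (b : B)) h.2⟩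
  set u : unitary B := ⟨(u' : B').1, huu⟩ with hu
  have huB : (u : B) ∈ B' := (u' : B').2
  set v : unitary B := star u with hv
  have hvB : (v : B) ∈ B' := by
    rw [hv, Unitary.coe_star]; exact star_mem huB
  set Ad : B →⋆ₐ[ℂ] B := ((Unitary.conjStarAlgAut ℂ B v : B ≃⋆ₐ[ℂ] B) : B →⋆ₐ[ℂ] B) with hAd
  have hAda : ∀ x, Ad x = (v : B) * x * star (v : B) := by
    intro x; rw [hAd]; simp [Unitary.conjStarAlgAut_apply]
  have hvv : star (v : B) * (v : B) = 1 := Unitary.coe_star_mul_self v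
  have hvv' : (v : B) * star (v : B) = 1 := Unitary.coe_mul_star_self v
  have hAdtr : ∀ x, τ (Ad x) = τ x := by
    intro x
    rw [hAda, hR.fts.comm, ← mul_assoc, hvv, one_mul]
  have hAdcont : Continuous Ad := by
    have : (Ad : B → B) = fun x => (v : B) * x * star (v : B) := funext hAda
    rw [this]; fun_prop
  have hAdnorm : ∀ x, ‖Ad x‖ ≤ ‖x‖ := fun x => NonUnitalStarAlgHom.norm_apply_le Ad x
  set e' : Fin (k + 1) → (Z →⋆ₐ[ℂ] B) :=
    fun j => if j = Fin.last k then Ad.comp (e j) else e j with he'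
  set f' : ℕ → (C(unitInterval, ℂ) →⋆ₐ[ℂ] B) :=
    fun n => if N ≤ n then Ad.comp (f n) else f n with hf'
  have he'1 : ∀ z, e' (Fin.last k) z = Ad (e (Fin.last k) z) := by
    intro z; simp [he']
  have he'2 : ∀ j, j ≠ Fin.last k → e' j = e j := by
    intro j hj; simp [he', hj]
  have hf'1 : ∀ n, N ≤ n → ∀ z, f' n z = Ad (f n z) := by
    intro n hn z; simp [hf', hn]
  have hf'2 : ∀ n, ¬ N ≤ n → f' n = f n := by
    intro n hn; simp only [hf', hn, if_false]
  -- the new family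
  have hR' : RFPw (J := Fin (k + 1)) (fun _ => Z) (fun _ => t) τ e' f' := by
    refine ⟨hR.fts, fun j z => ?_, fun n z => ?_, ?_, ?_⟩
    · by_cases hj : j = Fin.last k
      · subst hj; rw [he'1, hAdtr]; exact hR.tr _ z
      · rw [he'2 j hj]; exact hR.tr _ z
    · by_cases hn : N ≤ n
      · rw [hf'1 n hn, hAdtr]; exact hR.trf _ z
      · rw [hf'2 n hn]; exact hR.trf _ z
    · set P : Set (Fin (k + 1) ⊕ ℕ) :=
        {o | o.elim (fun j => j = Fin.last k) (fun n => N ≤ n)} with hP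
      set S : Fin (k + 1) ⊕ ℕ → StarSubalgebra ℂ B :=
        fun o => o.elim (fun j => (e j).range) fun n => (f n).range with hS
      have hvS : (v : B) ∈ (⨆ k : {k // k ∈ P}, S k.1).topologicalClosure := by
        have h1 : B' ≤ (⨆ k : {k // k ∈ P}, S k.1).topologicalClosure := by
          apply StarSubalgebra.topologicalClosure_mono
          apply StarAlgebra.adjoin_le
          rintro x (⟨z, rfl⟩ | hx)
          · exact (le_iSup (fun k : {k // k ∈ P} => S k.1) ⟨Sum.inl (Fin.last k), rfl⟩) ⟨z, rfl⟩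
          · obtain ⟨m, z, rfl⟩ := Set.mem_iUnion.1 hx
            exact (le_iSup (fun k : {k // k ∈ P} => S k.1)
              ⟨Sum.inr (N + m), Nat.le_add_right N m⟩) ⟨z, rfl⟩
        exact h1 hvB
      have h2 := hREPL B τ hR.fts _ S hR.free P v hvS
      intro w hw hz hc
      refine h2 w hw (fun z hzw => ⟨?_, (hz z hzw).2⟩) hc
      have h3 := (hz z hzw).1
      rcases z with ⟨o, x⟩
      rcases o with j | n
      · simp only [Sum.elim_inl] at h3
        obtain ⟨y, hy⟩ := h3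
        by_cases hj : j = Fin.last k
        · subst hj
          have : (Sum.inl (Fin.last k) : Fin (k + 1) ⊕ ℕ) ∈ P := rfl
          simp only [this, if_true]
          refine StarSubalgebra.mem_map.2 ⟨e (Fin.last k) y, ⟨y, rfl⟩, ?_⟩
          rw [← hy]; exact (he'1 y).symm
        · have : (Sum.inl j : Fin (k + 1) ⊕ ℕ) ∉ P := hj
          simp only [this, if_false]
          rw [he'2 j hj] at hy
          exact ⟨y, hy⟩
      · simp only [Sum.elim_inr] at h3
        obtain ⟨y, hy⟩ := h3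
        by_cases hn : N ≤ n
        · have : (Sum.inr n : Fin (k + 1) ⊕ ℕ) ∈ P := hn
          simp only [this, if_true]
          refine StarSubalgebra.mem_map.2 ⟨f n y, ⟨y, rfl⟩, ?_⟩
          rw [← hy]; exact (hf'1 n hn y).symm
        · have : (Sum.inr n : Fin (k + 1) ⊕ ℕ) ∉ P := hn
          simp only [this, if_false]
          rw [hf'2 n hn] at hy
          exact ⟨y, hy⟩
    · set C : StarSubalgebra ℂ B := (StarAlgebra.adjoin ℂ ((⋃ j, Set.range (e' j)) ∪
        ⋃ n, Set.range (f' n))).topologicalClosure with hC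
      have hCcl : IsClosed (C : Set B) := StarSubalgebra.isClosed_topologicalClosure _
      have hCe : ∀ j z, e' j z ∈ C := fun j z =>
        StarSubalgebra.le_topologicalClosure _ (StarAlgebra.subset_adjoin ℂ _
          (Or.inl (Set.mem_iUnion.2 ⟨j, z, rfl⟩)))
      have hCf : ∀ n z, f' n z ∈ C := fun n z =>
        StarSubalgebra.le_topologicalClosure _ (StarAlgebra.subset_adjoin ℂ _
          (Or.inr (Set.mem_iUnion.2 ⟨n, z, rfl⟩)))
      have h1 : B' ≤ C.comap Ad := by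
        apply StarSubalgebra.topologicalClosure_minimal
        · apply StarAlgebra.adjoin_le
          rintro x (⟨z, rfl⟩ | hx)
          · have := hCe (Fin.last k) z
            rw [he'1] at this
            exact this
          · obtain ⟨m, z, rfl⟩ := Set.mem_iUnion.1 hx
            have := hCf (N + m) z
            rw [hf'1 _ (Nat.le_add_right N m)] at this
            exact this
        · exact hCcl.preimage hAdcont
      have h2 : ∀ b ∈ B', b ∈ C := by
        intro b hb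
        have h3 : star (v : B) * b * v ∈ B' := mul_mem (mul_mem (star_mem hvB) hb) hvB
        have h4 : Ad (star (v : B) * b * v) ∈ C := h1 h3
        rw [hAda] at h4
        have h5 : (v : B) * (star (v : B) * b * v) * star (v : B) = b := by
          calc (v : B) * (star (v : B) * b * v) * star (v : B)
              = ((v : B) * star (v : B)) * b * ((v : B) * star (v : B)) := by noncomm_ring
            _ = b := by rw [hvv', one_mul, mul_one]
        rwa [h5] at h4
      rw [eq_top_iff, ← hR.gen]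
      apply StarSubalgebra.topologicalClosure_minimal _ hCcl
      apply StarAlgebra.adjoin_le
      rintro x (hx | hx)
      · obtain ⟨j, z, rfl⟩ := Set.mem_iUnion.1 hx
        by_cases hj : j = Fin.last k
        · subst hj; exact h2 _ (heB z)
        · have := hCe j z; rwa [he'2 j hj] at this
      · obtain ⟨n, z, rfl⟩ := Set.mem_iUnion.1 hx
        by_cases hn : N ≤ n
        · obtain ⟨m, rfl⟩ := Nat.exists_eq_add_of_le hn
          exact h2 _ (hfB m z)
        · have := hCf n z; rwa [hf'2 n hn] at this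
  -- the subalgebras `T M`
  set T : ℕ → StarSubalgebra ℂ B := fun M => StarAlgebra.adjoin ℂ
    ((⋃ j : Fin k, Set.range (e j.castSucc)) ∪ ⋃ n : {n : ℕ // n < M}, Set.range (f' n.1)) with hTd
  have hTe : ∀ (M : ℕ) (j : Fin k) (z : Z), e j.castSucc z ∈ T M := fun M j z =>
    StarAlgebra.subset_adjoin ℂ _ (Or.inl (Set.mem_iUnion.2 ⟨j, z, rfl⟩))
  have hTf : ∀ (M n : ℕ), n < M → ∀ z, f' n z ∈ T M := fun M n hn z =>
    StarAlgebra.subset_adjoin ℂ _ (Or.inr (Set.mem_iUnion.2 ⟨⟨n, hn⟩, z, rfl⟩))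
  have hTy : ∀ y ∈ StarAlgebra.adjoin ℂ (⋃ n, Set.range (f1 n)), ∃ M, ∀ M' ≥ M,
      Ad (y : B) ∈ T M' := by
    intro y hy
    induction hy using StarAlgebra.adjoin_induction with
    | mem y h =>
      obtain ⟨m, z, rfl⟩ := Set.mem_iUnion.1 h
      refine ⟨N + m + 1, fun M' hM' => ?_⟩
      have := hTf M' (N + m) (by omega) z
      rw [hf'1 _ (Nat.le_add_right N m)] at this
      exact this
    | algebraMap r =>
      refine ⟨0, fun M' _ => ?_⟩
      have : Ad ((algebraMap ℂ B' r : B') : B) = algebraMap ℂ B r := by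
        have h : ((algebraMap ℂ B' r : B') : B) = algebraMap ℂ B r := rfl
        rw [h]; exact Ad.toAlgHom.commutes r
      rw [this]; exact (T M').algebraMap_mem r
    | add x y _ _ hx hy =>
      obtain ⟨M1, h1⟩ := hx
      obtain ⟨M2, h2⟩ := hy
      refine ⟨max M1 M2, fun M' hM' => ?_⟩
      have : ((x + y : B') : B) = (x : B) + (y : B) := rfl
      rw [this, map_add]
      exact add_mem (h1 M' (le_trans (le_max_left _ _) hM'))
        (h2 M' (le_trans (le_max_right _ _) hM'))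
    | mul x y _ _ hx hy =>
      obtain ⟨M1, h1⟩ := hx
      obtain ⟨M2, h2⟩ := hy
      refine ⟨max M1 M2, fun M' hM' => ?_⟩
      have : ((x * y : B') : B) = (x : B) * (y : B) := rfl
      rw [this, map_mul]
      exact mul_mem (h1 M' (le_trans (le_max_left _ _) hM'))
        (h2 M' (le_trans (le_max_right _ _) hM'))
    | star x _ hx =>
      obtain ⟨M1, h1⟩ := hx
      refine ⟨M1, fun M' hM' => ?_⟩
      have : ((star x : B') : B) = star (x : B) := rfl
      rw [this, map_star]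
      exact star_mem (h1 M' hM')
  have hex : ∀ g : Z, ∃ M : ℕ, g ∈ G → ∀ M' ≥ M, ∃ y ∈ T M', ‖e (Fin.last k) g - y‖ < δ := by
    intro g
    by_cases hg : g ∈ G
    · obtain ⟨y, hy, hyδ⟩ := hu' g hg
      obtain ⟨M, hM⟩ := hTy y hy
      refine ⟨M, fun _ M' hM' => ⟨Ad (y : B), hM M' hM', ?_⟩⟩
      have h1 : e (Fin.last k) g - Ad (y : B) =
          Ad ((u : B) * e (Fin.last k) g * star (u : B) - (y : B)) := by
        rw [map_sub]
        congr 1
        rw [hAda]
        have h2 : (v : B) = star (u : B) := by rw [hv, Unitary.coe_star]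
        have h3 : star (u : B) * (u : B) = 1 := Unitary.coe_star_mul_self u
        rw [h2, star_star]
        calc e (Fin.last k) g = 1 * e (Fin.last k) g * 1 := by rw [one_mul, mul_one]
          _ = (star (u : B) * (u : B)) * e (Fin.last k) g * (star (u : B) * (u : B)) := by
            rw [h3]
          _ = _ := by noncomm_ring
      rw [h1]
      refine lt_of_le_of_lt (hAdnorm _) ?_
      exact hyδ
    · exact ⟨0, fun h => absurd h hg⟩
  choose Mg hMg using hex
  refine ⟨e', f', max N (G.sup Mg), hR', ?_, ?_, ?_, ?_⟩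
  · intro j
    exact he'2 _ (Fin.castSucc_lt_last j).ne
  · intro n hn
    apply hf'2
    have : N0 ≤ N := le_max_left _ _
    omega
  · exact le_trans (le_max_left N0 Na) (le_max_left N _)
  · have := hT (T (max N (G.sup Mg))) (hTe _) ?_ ?_
    · exact this
    · intro n hn z
      have hnN : n < N := lt_of_lt_of_le hn (le_max_right _ _)
      have h1 := hTf (max N (G.sup Mg)) n (lt_of_lt_of_le hnN (le_max_left _ _)) z
      rwa [hf'2 n (by omega)] at h1
    · intro g hg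
      exact hMg g hg _ (le_trans (Finset.le_sup hg) (le_max_right _ _))

end Pool.Agent.H923R2.FZ.T_HSTEP
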