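import Pool.Agent.H923R2.FZ.Stubs3

set_option autoImplicit false

open scoped ComplexConjugate

noncomputable section

namespace Pool.Agent.H923R2.FZ.T_EXF

open Pool.Agent.H923R2.FP

lemma inner_dl2 {X : Type} (x : X) (ξ : l2 X) : inner ℂ (dl2 x) ξ = ξ x := by
  classical
  unfold dl2
  rw [lp.inner_single_left]
  simp

lemma tl_of_hd_none {K : Type} {I : K → Type} (k : K) (w : Wd I) (h : w.hd k = none) :
    w.tl k = w := by
  classical
  rcases w with ⟨l, hl⟩
  rcases l with _ | ⟨a, l⟩
  · rfl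
  · by_cases hak : a.1 = k
    · exfalso
      simp only [Wd.hd, hak, dif_pos] at h
      exact absurd h (by simp)
    · simp [Wd.tl, hak]; rfl

lemma hd_none_of_ne {K : Type} {I : K → Type} {k k' : K} (hk : k ≠ k') (w : Wd I)
    (h : w.hd k' ≠ none) : w.hd k = none := by
  classical
  rcases w with ⟨l, hl⟩
  rcases l with _ | ⟨a, l⟩
  · rfl
  · by_cases hak : a.1 = k'
    · have : ¬ a.1 = k := fun h2 => hk (by rw [← h2, hak])
      simp only [Wd.hd, this, dif_neg, not_false_iff]
    · exfalso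
      apply h
      simp only [Wd.hd, hak, dif_neg, not_false_iff]

lemma step {K : Type} {D : K → Type} [∀ k, CStarAlgebra (D k)] {I : K → Type}
    (t : ∀ k, D k →ₗ[ℂ] ℂ)
    (lam : ∀ k, D k →⋆ₐ[ℂ] (l2 (Option (I k)) →L[ℂ] l2 (Option (I k))))
    (Lam : ∀ k, D k →⋆ₐ[ℂ] (l2 (Wd I) →L[ℂ] l2 (Wd I)))
    (h1 : ∀ k x, inner ℂ (dl2 (none : Option (I k))) (lam k x (dl2 none)) = t k x)
    (h2 : ∀ (k : K) (x : D k) (w w' : Wd I), w.tl k ≠ w'.tl k →
      inner ℂ (dl2 w) (Lam k x (dl2 w')) = 0)
    (h3 : ∀ (k : K) (x : D k) (w w' : Wd I), w.tl k = w'.tl k →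
      inner ℂ (dl2 w) (Lam k x (dl2 w')) = inner ℂ (dl2 (w.hd k)) (lam k x (dl2 (w'.hd k))))
    (k : K) (x : D k) (hx : t k x = 0) (ξ : l2 (Wd I))
    (hξ : ∀ w : Wd I, w.hd k ≠ none → ξ w = 0) (w : Wd I) (hw : w.hd k = none) :
    (Lam k x ξ) w = 0 := by
  rw [← inner_dl2 w (Lam k x ξ)]
  have hadj : inner ℂ (dl2 w) (Lam k x ξ) = inner ℂ (Lam k (star x) (dl2 w)) ξ := by
    rw [map_star, ContinuousLinearMap.star_eq_adjoint, ContinuousLinearMap.adjoint_inner_left]
  rw [hadj, lp.inner_eq_tsum]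
  have hz : ∀ w' : Wd I, inner ℂ ((Lam k (star x) (dl2 w)) w') (ξ w') = (0 : ℂ) := by
    intro w'
    by_cases hw' : w'.hd k = none
    · have h4 : (Lam k (star x) (dl2 w)) w' = 0 := by
        rw [← inner_dl2 w']
        by_cases heq : w' = w
        · subst heq
          rw [h3 k (star x) w' w' rfl, hw', map_star, ContinuousLinearMap.star_eq_adjoint,
            ContinuousLinearMap.adjoint_inner_right, ← inner_conj_symm, h1, hx, map_zero]
        · apply h2
          rw [tl_of_hd_none k w' hw', tl_of_hd_none k w hw]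
          exact heq
      rw [h4, inner_zero_left]
    · rw [hξ w' hw', inner_zero_right]
  simp only [hz, tsum_zero]

theorem t_EXF : S_EXF := by
  classical
  intro K D _ I t lam Lam h1 h0
  have h2 : ∀ (k : K) (x : D k) (w w' : Wd I), w.tl k ≠ w'.tl k →
      inner ℂ (dl2 w) (Lam k x (dl2 w')) = 0 := by
    intro k x w w' h
    rw [h0, if_neg h]
  have h3 : ∀ (k : K) (x : D k) (w w' : Wd I), w.tl k = w'.tl k →
      inner ℂ (dl2 w) (Lam k x (dl2 w')) =
        inner ℂ (dl2 (w.hd k)) (lam k x (dl2 (w'.hd k))) := by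
    intro k x w w' h
    rw [h0, if_pos h]
  refine ⟨fun k x => ?_, ?_⟩
  · rw [h3 k x _ _ rfl]
    exact h1 k x
  · have key : ∀ (l : List (Σ k, D k)), l.IsChain (fun a b => a.1 ≠ b.1) →
        (∀ z ∈ l, t z.1 z.2 = 0) → ∀ z0 ∈ l.head?, ∀ w : Wd I, w.hd z0.1 = none →
        ((l.map fun z => Lam z.1 z.2).prod (dl2 (Wd.nil I))) w = 0 := by
      intro l
      induction l with
      | nil => intro _ _ z0 hz0; simp at hz0
      | cons z l ih =>
        intro hc ht z0 hz0 w hw
        simp only [List.head?_cons, Option.mem_def, Option.some.injEq] at hz0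
        subst hz0
        rw [List.map_cons, List.prod_cons, mul_apply_eq_comp]
        apply step t lam Lam h1 h2 h3 z.1 z.2 (ht z (by simp)) _ _ w hw
        intro w' hw'
        rcases l with _ | ⟨z', l⟩
        · simp only [List.map_nil, List.prod_nil, one_apply_eq_self]
          rw [← inner_dl2 w']
          by_cases hn : w' = Wd.nil I
          · subst hn
            exact absurd rfl hw'
          · rw [inner_dl2]
            unfold dl2
            rw [lp.single_apply_ne 2 _ _ hn]
        · apply ih hc.tail (fun z hz => ht z (List.mem_cons_of_mem _ hz)) z' (by simp)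
          have hne : z.1 ≠ z'.1 := by
            rw [List.isChain_cons_cons] at hc
            exact hc.1
          exact hd_none_of_ne (Ne.symm hne) w' hw'
    intro l hl hc ht
    rw [inner_dl2]
    rcases l with _ | ⟨z, l⟩
    · exact absurd rfl hl
    · exact key (z :: l) hc ht z (by simp) _ rfl

end Pool.Agent.H923R2.FZ.T_EXF
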